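import Mathlib
import Pool.Agent.N681.LG.Defs
import Pool.Agent.N681.LG.Main

/-!
# Lattice Yang-Mills theory: the gap of the Langevin dynamics at weak coupling

Wilson's lattice gauge theory on the periodic lattice `(ℤ/l)^d`, `d = D + 1 ≥ 3`, with gauge group a
closed subgroup `G` of `U(N)` of positive dimension: the probability measure on `G ^ links` with
density proportional to `exp (-β ∑_p Re tr (1 - U_p))` with respect to the Haar measure. The
Langevin dynamics (stochastic quantization) is the reversible diffusion on `G ^ links` with this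
invariant measure and with the Dirichlet form `E |∇F|^2`; the relaxation rate of the modes at the
scale of the lattice spacing is of the order `β`. Let `g(β) = log^2 β` for `d = 3` and
`g(β) = β (log β / β) ^ (2 / (d - 2))` for `d ≥ 4`; thus `g(β) = log β` for `d = 4`, and `g(β) / β`
tends to `0` in all dimensions `d ≥ 3`. Let `m(β) = log β / √β` for `d = 3` and
`m(β) = (log β / β) ^ (1 / (d - 2))` for `d ≥ 4`, so that `g(β) = β m(β)^2`.

For all large `β` the spectral gap of the Langevin dynamics in the space of gauge invariant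
functions (and hence also in the space of all functions) is at most `C g(β)`, in all even volumes
`l > C / m(β)`, and likewise for local gauge invariant functions in all infinite volume limits:
there is a smooth gauge invariant function `F` of the links in a cube of side at most `C / m(β)`
whose variance is at least `c > 0` and whose Dirichlet form is at most `C g(β)`.
-/

open MeasureTheory Matrix Filter Pool.Agent.Y14.Wilson Pool.Agent.N681.LG
open scoped Matrix.Norms.Frobenius Topology

namespace Pool.Agent.Results.MP_7f377f_mp.LangevinGap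

noncomputable section

/-- The inverse length `m(β)` in dimension `d = D + 1`: `log β / √β` for `d = 3` and
`(log β / β) ^ (1 / (d - 2))` for `d ≥ 4`. -/
def mb (D : ℕ) (β : ℝ) : ℝ :=
  if D = 2 then Real.log β / Real.sqrt β else (Real.log β / β) ^ (1 / ((D : ℝ) - 1))

/-- The bound `g(β) = β m(β)^2` of the gap in dimension `d = D + 1`: `log^2 β` for `d = 3` and
`β (log β / β) ^ (2 / (d - 2))` for `d ≥ 4`. -/
def gb (D : ℕ) (β : ℝ) : ℝ :=
  if D = 2 then Real.log β ^ 2 else β * (Real.log β / β) ^ (2 / ((D : ℝ) - 1))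

theorem result {N n D : ℕ} (G : Subgroup (UU N)) (hG : IsClosed (G : Set (UU N)))
    [MeasurableSpace G] [BorelSpace G] (μ : Measure G) [IsProbabilityMeasure μ] [μ.IsHaarMeasure]
    (B : LieBasis G n) (hn : 1 ≤ n) (hD : 2 ≤ D) :
    ∃ C c β₀ : ℝ, 0 < C ∧ 0 < c ∧ 1 < β₀ ∧ ∀ β : ℝ, β₀ ≤ β →
      GapBound D μ B β (C / mb D β) (C * gb D β) ∧ GapBoundZ D μ B β (C * gb D β) ∧
      (∃ ν : Measure (LinkZ (D + 1) → G), IsInfVol μ β ν) ∧
      ∃ (R : ℕ) (F : (LinkZ (D + 1) → G) → ℝ), (R : ℝ) * mb D β ≤ C ∧ IsLocal R F ∧ Smooth F ∧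
        SlowT μ B β c (C * gb D β) R F ∧ SlowZ μ B β c (C * gb D β) F := by
  obtain ⟨C, c, β₀, hC, hc, hβ₀, h⟩ := Pool.Agent.MG990.L681.Wilson.main G hG μ B hn hD
  refine ⟨C, c, max β₀ 3, hC, hc, lt_of_lt_of_le hβ₀ (le_max_left _ _), fun β hβ => ?_⟩
  have hβ3 : 3 ≤ β := (le_max_right _ _).trans hβ
  have hm : 0 < mb D β := by
    have hlog : 0 < Real.log β := Real.log_pos (by linarith)
    unfold mb
    split_ifs <;> positivity
  obtain ⟨⟨R, F, hR, hF, hFs, hT, hZ⟩, h1, h2, h3⟩ := h β ((le_max_left _ _).trans hβ)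
  refine ⟨fun l _ hl hCl lam hP => h1 l hl ?_ lam hP, h2, h3, R, F, hR, hF, hFs, hT, hZ⟩
  rw [div_lt_iff₀ hm] at hCl
  exact hCl

end

end Pool.Agent.Results.MP_7f377f_mp.LangevinGap
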